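import Pool.Agent.H29.DF.Targets

/-!
# Dihedral `L`-functions, exceptional discriminants: the sum of the kernel over the ideals (KSM)
-/

set_option autoImplicit false

open MeasureTheory Set Filter NumberField
open scoped Real nonZeroDivisors Matrix MatrixGroups

namespace Pool.Agent.H19.DFX

open Pool.Agent.H31.CN Pool.Agent.H89.FM Pool.Agent.H61.FM Pool.Agent.H89.FC Pool.Agent.H95.FC
open Pool.Agent.H89.DF Pool.Agent.H95.DR Pool.Agent.H29.DF

/-- polynomial against exponential -/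
theorem xks_exp (c x : ℝ) (hc : 0 < c) (hx : 0 ≤ x) :
    (1 + x ^ 2) * Real.exp (-(c * x)) ≤ 1 + 2 / c ^ 2 := by
  have h1 := Real.quadratic_le_exp_of_nonneg (mul_nonneg hc.le hx)
  have h2 : 1 + x ^ 2 ≤ (1 + 2 / c ^ 2) * Real.exp (c * x) := by
    have h3 : 0 ≤ 2 / c ^ 2 := by positivity
    have h4 : (1 + 2 / c ^ 2) * (1 + (c * x) ^ 2 / 2) ≤ (1 + 2 / c ^ 2) * Real.exp (c * x) := by
      refine mul_le_mul_of_nonneg_left ?_ (by linarith)
      have h5 : 0 ≤ c * x := mul_nonneg hc.le hx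
      linarith
    have h6 : (1 + 2 / c ^ 2) * (1 + (c * x) ^ 2 / 2) =
        1 + x ^ 2 + (2 / c ^ 2 + (c * x) ^ 2 / 2) := by
      field_simp
      ring
    have h7 : 0 ≤ (c * x) ^ 2 / 2 := by positivity
    linarith
  rw [Real.exp_neg, ← div_eq_mul_inv, div_le_iff₀ (Real.exp_pos _)]
  exact h2

/-- the bound for one term -/
theorem xks_term (c r M a e : ℝ) (hc : 0 < c) (hr : 0 < r) (hM : 1 ≤ M) (ha0 : 0 ≤ a)
    (ha1 : a ≤ 1) (he0 : 0 ≤ e) (he1 : e ≤ 1 / 4) :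
    r ^ (-a) * Real.exp (-(c * r / M)) ≤ (1 + 2 / c ^ 2) * M ^ 2 * r ^ (-1 - 2 * e) := by
  have hM0 : 0 < M := by linarith
  obtain ⟨x, hx⟩ : ∃ x, x = r / M := ⟨_, rfl⟩
  have hx0 : 0 < x := by rw [hx]; positivity
  have hrx : r = M * x := by rw [hx]; field_simp
  obtain ⟨b, hb⟩ : ∃ b, b = 1 - a + 2 * e := ⟨_, rfl⟩
  have hb0 : 0 ≤ b := by rw [hb]; linarith
  have hb2 : b ≤ 2 := by rw [hb]; linarith
  have h1 : r ^ (-a) = r ^ (-1 - 2 * e) * r ^ b := by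
    rw [← Real.rpow_add hr, hb]
    congr 1
    ring
  have h2 : r ^ b = M ^ b * x ^ b := by
    rw [hrx, Real.mul_rpow hM0.le hx0.le]
  have h3 : M ^ b ≤ M ^ 2 := by
    rw [← Real.rpow_natCast M 2]
    exact Real.rpow_le_rpow_of_exponent_le hM (by push_cast; exact hb2)
  have h4 : x ^ b ≤ 1 + x ^ 2 := by
    rcases le_or_gt x 1 with h | h
    · have h5 := Real.rpow_le_one hx0.le h hb0
      nlinarith [sq_nonneg x]
    · have h5 : x ^ b ≤ x ^ 2 := by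
        rw [← Real.rpow_natCast x 2]
        exact Real.rpow_le_rpow_of_exponent_le h.le (by push_cast; exact hb2)
      linarith
  have h5 : c * r / M = c * x := by rw [hx]; ring
  have h6 := xks_exp c x hc hx0.le
  have h7 : 0 < r ^ (-1 - 2 * e) := Real.rpow_pos_of_pos hr _
  have h8 : r ^ b * Real.exp (-(c * r / M)) ≤ M ^ 2 * (1 + 2 / c ^ 2) := by
    rw [h5, h2]
    calc M ^ b * x ^ b * Real.exp (-(c * x)) ≤ M ^ 2 * (1 + x ^ 2) * Real.exp (-(c * x)) := by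
          refine mul_le_mul_of_nonneg_right ?_ (Real.exp_pos _).le
          exact mul_le_mul h3 h4 (Real.rpow_pos_of_pos hx0 _).le (by positivity)
      _ = M ^ 2 * ((1 + x ^ 2) * Real.exp (-(c * x))) := by ring
      _ ≤ _ := mul_le_mul_of_nonneg_left h6 (by positivity)
  calc r ^ (-a) * Real.exp (-(c * r / M)) =
        r ^ (-1 - 2 * e) * (r ^ b * Real.exp (-(c * r / M))) := by rw [h1]; ring
    _ ≤ r ^ (-1 - 2 * e) * (M ^ 2 * (1 + 2 / c ^ 2)) := mul_le_mul_of_nonneg_left h8 h7.le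
    _ = _ := by ring

theorem xks_nm {K : Type} [Field K] [NumberField K] (J : (Ideal (𝓞 K))⁰) : 1 ≤ nm J := by
  unfold nm
  exact Nat.one_le_iff_ne_zero.2 (Ideal.absNorm_ne_zero_of_nonZeroDivisors J)

/-- the partial sums -/
theorem xks_sum {K : Type} [Field K] [NumberField K] (C2 e : ℝ)
    (hC : ∀ n : ℕ, 1 ≤ n → ((Nn K n).card : ℝ) ≤ C2 * (n : ℝ) ^ e) (hC0 : 0 < C2) (he : 0 < e)
    (s : Finset (Ideal (𝓞 K))⁰) :
    ∑ J ∈ s, (nm J : ℝ) ^ (-1 - 2 * e) ≤ C2 * ∑' n : ℕ, (n : ℝ) ^ (-1 - e) := by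
  classical
  have hsum : Summable fun n : ℕ => (n : ℝ) ^ (-1 - e) :=
    Real.summable_nat_rpow.2 (by linarith)
  have h1 : ∑ J ∈ s, (nm J : ℝ) ^ (-1 - 2 * e) =
      ∑ n ∈ s.image nm, (s.filter fun J => nm J = n).card • (n : ℝ) ^ (-1 - 2 * e) :=
    Finset.sum_comp (fun n : ℕ => (n : ℝ) ^ (-1 - 2 * e)) nm
  rw [h1]
  calc ∑ n ∈ s.image nm, (s.filter fun J => nm J = n).card • (n : ℝ) ^ (-1 - 2 * e) ≤
        ∑ n ∈ s.image nm, C2 * (n : ℝ) ^ (-1 - e) := by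
        refine Finset.sum_le_sum fun n hn => ?_
        rw [Finset.mem_image] at hn
        obtain ⟨J, hJ, hJn⟩ := hn
        have hn1 : 1 ≤ n := by
          rw [← hJn]
          exact xks_nm J
        have hn0 : (0 : ℝ) < n := by exact_mod_cast hn1
        have h2 : ((s.filter fun J => nm J = n).card : ℝ) ≤ C2 * (n : ℝ) ^ e := by
          refine le_trans ?_ (hC n hn1)
          have h3 : (s.filter fun J => nm J = n) ⊆ Nn K n := by
            intro I hI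
            rw [Finset.mem_filter] at hI
            exact mem_Nn.2 hI.2
          exact_mod_cast Finset.card_le_card h3
        rw [nsmul_eq_mul]
        calc ((s.filter fun J => nm J = n).card : ℝ) * (n : ℝ) ^ (-1 - 2 * e) ≤
              C2 * (n : ℝ) ^ e * (n : ℝ) ^ (-1 - 2 * e) :=
              mul_le_mul_of_nonneg_right h2 (Real.rpow_pos_of_pos hn0 _).le
          _ = C2 * (n : ℝ) ^ (-1 - e) := by
              rw [mul_assoc, ← Real.rpow_add hn0]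
              congr 2
              ring
    _ = C2 * ∑ n ∈ s.image nm, (n : ℝ) ^ (-1 - e) := by rw [Finset.mul_sum]
    _ ≤ _ := by
        refine mul_le_mul_of_nonneg_left ?_ hC0.le
        exact hsum.sum_le_tsum _ fun n _ => Real.rpow_nonneg (Nat.cast_nonneg n) _

theorem pf_XKS (hNID : T_NID) : T_KSM := by
  intro ε hε c hc
  obtain ⟨e, he⟩ : ∃ e : ℝ, e = min ε 1 / 4 := ⟨_, rfl⟩
  have he0 : 0 < e := by
    rw [he]
    have := lt_min hε one_pos
    linarith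
  have he1 : e ≤ 1 / 4 := by
    rw [he]
    have := min_le_right ε 1
    linarith
  have he2 : 2 * e ≤ ε := by
    rw [he]
    have h1 := min_le_left ε 1
    linarith
  obtain ⟨C2, hC20, hC2⟩ := hNID e he0
  obtain ⟨Z, hZ⟩ : ∃ Z : ℝ, Z = ∑' n : ℕ, (n : ℝ) ^ (-1 - e) := ⟨_, rfl⟩
  have hZ0 : 0 ≤ Z := by
    rw [hZ]
    exact tsum_nonneg fun n => Real.rpow_nonneg (Nat.cast_nonneg n) _
  obtain ⟨C1, hC1⟩ : ∃ C1 : ℝ, C1 = 1 + 2 / c ^ 2 := ⟨_, rfl⟩
  have hC10 : 0 < C1 := by rw [hC1]; positivity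
  refine ⟨2 * C1 * C2 * (Z + 1), 2, by positivity, ?_⟩
  intro K _ _ Y M σ hrk hY hM hσ
  have hY0 : 0 < Y := by linarith
  have hM0 : 0 < M := by linarith
  rw [abs_le] at hσ
  have hterm : ∀ J : (Ideal (𝓞 K))⁰, (((nm J : ℝ) / Y) ^ (-σ) + ((nm J : ℝ) / Y) ^ (σ - 1)) *
      Real.exp (-(c * ((nm J : ℝ) / Y) / M)) ≤
      2 * C1 * M ^ 2 * Y ^ (1 + ε) * (nm J : ℝ) ^ (-1 - 2 * e) := by
    intro J
    have hn1 : (1 : ℝ) ≤ nm J := by exact_mod_cast xks_nm J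
    have hn0 : (0 : ℝ) < nm J := by linarith
    have hr : 0 < (nm J : ℝ) / Y := by positivity
    have h1 := xks_term c ((nm J : ℝ) / Y) M σ e hc hr hM (by linarith) (by linarith) he0.le he1
    have h2 := xks_term c ((nm J : ℝ) / Y) M (1 - σ) e hc hr hM (by linarith) (by linarith) he0.le
      he1
    rw [neg_sub] at h2
    rw [← hC1] at h1 h2
    have h3 : ((nm J : ℝ) / Y) ^ (-1 - 2 * e) ≤ Y ^ (1 + ε) * (nm J : ℝ) ^ (-1 - 2 * e) := by
      rw [Real.div_rpow hn0.le hY0.le, div_eq_mul_inv, ← Real.rpow_neg hY0.le, mul_comm]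
      refine mul_le_mul_of_nonneg_right ?_ (Real.rpow_pos_of_pos hn0 _).le
      exact Real.rpow_le_rpow_of_exponent_le hY (by linarith)
    have h4 : C1 * M ^ 2 * ((nm J : ℝ) / Y) ^ (-1 - 2 * e) ≤
        C1 * M ^ 2 * (Y ^ (1 + ε) * (nm J : ℝ) ^ (-1 - 2 * e)) :=
      mul_le_mul_of_nonneg_left h3 (by positivity)
    rw [add_mul]
    linarith
  have hnn : ∀ J : (Ideal (𝓞 K))⁰, 0 ≤ (((nm J : ℝ) / Y) ^ (-σ) + ((nm J : ℝ) / Y) ^ (σ - 1)) *
      Real.exp (-(c * ((nm J : ℝ) / Y) / M)) := by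
    intro J
    have hr : 0 ≤ (nm J : ℝ) / Y := by positivity
    exact mul_nonneg (add_nonneg (Real.rpow_nonneg hr _) (Real.rpow_nonneg hr _))
      (Real.exp_pos _).le
  have hfin : ∀ s : Finset (Ideal (𝓞 K))⁰, ∑ J ∈ s,
      (((nm J : ℝ) / Y) ^ (-σ) + ((nm J : ℝ) / Y) ^ (σ - 1)) *
      Real.exp (-(c * ((nm J : ℝ) / Y) / M)) ≤ 2 * C1 * C2 * (Z + 1) * M ^ 2 * Y ^ (1 + ε) := by
    intro s
    have hpos : 0 < Y ^ (1 + ε) := Real.rpow_pos_of_pos hY0 _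
    have h1 := xks_sum C2 e (hC2 K hrk) hC20 he0 s
    rw [← hZ] at h1
    calc _ ≤ ∑ J ∈ s, 2 * C1 * M ^ 2 * Y ^ (1 + ε) * (nm J : ℝ) ^ (-1 - 2 * e) :=
          Finset.sum_le_sum fun J _ => hterm J
      _ = 2 * C1 * M ^ 2 * Y ^ (1 + ε) * ∑ J ∈ s, (nm J : ℝ) ^ (-1 - 2 * e) := by
          rw [Finset.mul_sum]
      _ ≤ 2 * C1 * M ^ 2 * Y ^ (1 + ε) * (C2 * (Z + 1)) := by
          refine mul_le_mul_of_nonneg_left ?_ (by positivity)
          refine h1.trans (mul_le_mul_of_nonneg_left (by linarith) hC20.le)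
      _ = _ := by ring
  have hsum := summable_of_sum_le hnn hfin
  exact ⟨hsum, hsum.tsum_le_of_sum_le hfin⟩

end Pool.Agent.H19.DFX
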