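import Pool.Agent.H29.DF.Targets

/-!
# Dihedral `L`-functions, exceptional discriminants: few vectors on a line in a short window (XSP)
-/

set_option autoImplicit false

open MeasureTheory Set Filter NumberField
open scoped Real nonZeroDivisors Matrix MatrixGroups

namespace Pool.Agent.H19.DFX

open Pool.Agent.H31.CN Pool.Agent.H89.FM Pool.Agent.H61.FM Pool.Agent.H89.FC Pool.Agent.H95.FC
open Pool.Agent.H89.DF Pool.Agent.H95.DR Pool.Agent.H29.DF

theorem xsp_cop {Q : QF} {v : ℤ × ℤ} (h : Squarefree (val Q v).natAbs) : IsCoprime v.1 v.2 := by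
  rw [Int.squarefree_natAbs] at h
  obtain ⟨p, hp⟩ := Int.gcd_dvd_left v.1 v.2
  obtain ⟨q, hq⟩ := Int.gcd_dvd_right v.1 v.2
  have h1 : (Int.gcd v.1 v.2 : ℤ) * (Int.gcd v.1 v.2 : ℤ) ∣ val Q v := by
    refine ⟨Q.1 * p ^ 2 + Q.2.1 * p * q + Q.2.2 * q ^ 2, ?_⟩
    unfold val
    generalize (Int.gcd v.1 v.2 : ℤ) = g at hp hq
    rw [hp, hq]
    ring
  have h2 := Int.isUnit_iff.1 (h _ h1)
  rw [Int.isCoprime_iff_gcd_eq_one]
  omega

theorem xsp_two {Q : QF} {v w : ℤ × ℤ} (hv : Squarefree (val Q v).natAbs)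
    (hw : Squarefree (val Q w).natAbs) (h : det v w = 0) : w = v ∨ w = -v := by
  obtain ⟨a, b, hab⟩ := xsp_cop hv
  obtain ⟨c, d, hcd⟩ := xsp_cop hw
  unfold det at h
  obtain ⟨t, ht⟩ : ∃ t, t = a * w.1 + b * w.2 := ⟨_, rfl⟩
  have h1 : w.1 = t * v.1 := by
    rw [ht]
    linear_combination (-w.1) * hab - b * h
  have h2 : w.2 = t * v.2 := by
    rw [ht]
    linear_combination (-w.2) * hab + a * h
  have h3 : IsUnit t := by
    refine IsUnit.of_mul_eq_one (c * v.1 + d * v.2) ?_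
    rw [h1, h2] at hcd
    linear_combination hcd
  rcases Int.isUnit_iff.1 h3 with h4 | h4
  · left
    rw [h4, one_mul] at h1 h2
    exact Prod.ext h1 h2
  · right
    rw [h4, neg_one_mul] at h1 h2
    exact Prod.ext h1 h2

/-- the abstract count -/
theorem xsp_count (hSEP : T_SEP) (S : Set (ℤ × ℤ)) (hS : S.Finite) (u : ℤ × ℤ → ℝ) (E cc : ℝ)
    (hE : 0 ≤ E) (hcc : 0 < cc) (hb : ∀ v ∈ S, |u v| ≤ E)
    (hsep : ∀ v ∈ S, ∀ w ∈ S, u v ≠ u w → cc ≤ |u v - u w|)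
    (htwo : ∀ v ∈ S, ∀ w ∈ S, u v = u w → w = v ∨ w = -v) :
    (S.ncard : ℝ) ≤ 2 * (1 + 2 * E / cc) := by
  classical
  obtain ⟨A, hA⟩ : ∃ A, A = hS.toFinset := ⟨_, rfl⟩
  have hmem : ∀ v, v ∈ A ↔ v ∈ S := fun v => by rw [hA, Set.Finite.mem_toFinset]
  have hcard : S.ncard = A.card := by rw [hA, Set.ncard_eq_toFinset_card S hS]
  have h1 : ((A.image u).card : ℝ) ≤ 1 + (E - (-E)) / cc := by
    refine hSEP (A.image u) (-E) E cc hcc (by linarith) ?_ ?_
    · intro x hx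
      rw [Finset.mem_image] at hx
      obtain ⟨v, hv, rfl⟩ := hx
      exact abs_le.1 (hb v ((hmem v).1 hv))
    · intro x hx y hy hxy
      rw [Finset.mem_image] at hx hy
      obtain ⟨v, hv, rfl⟩ := hx
      obtain ⟨w, hw, rfl⟩ := hy
      exact hsep v ((hmem v).1 hv) w ((hmem w).1 hw) hxy
  have h2 : A.card ≤ 2 * (A.image u).card := by
    refine Finset.card_le_mul_card_image A 2 fun x hx => ?_
    rw [Finset.mem_image] at hx
    obtain ⟨v, hv, rfl⟩ := hx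
    have h3 : {w ∈ A | u w = u v} ⊆ {v, -v} := by
      intro w hw
      rw [Finset.mem_filter] at hw
      rw [Finset.mem_insert, Finset.mem_singleton]
      exact htwo v ((hmem v).1 hv) w ((hmem w).1 hw.1) hw.2.symm
    exact (Finset.card_le_card h3).trans (Finset.card_le_two)
  have h3 : (A.card : ℝ) ≤ 2 * ((A.image u).card : ℝ) := by exact_mod_cast h2
  have h4 : (E - (-E)) / cc = 2 * E / cc := by ring
  rw [h4] at h1
  rw [hcard]
  linarith

section

variable {K : Type} [Field K] [NumberField K]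

theorem xsp_ne {σ : K →+* ℝ} {a : 𝓞 K} (h : a ≠ 0) : σ (a : K) ≠ 0 := by
  intro h0
  refine h ?_
  have h1 : (a : K) = 0 := (map_eq_zero_iff σ σ.injective).1 h0
  exact_mod_cast h1

/-- the first coordinate -/
theorem xsp_sq1 {σ σ' : K →+* ℝ} {a : 𝓞 K} (h : a ≠ 0) :
    σ (a : K) ^ 2 = |σ (a : K) * σ' (a : K)| * Real.exp (lg σ σ' a) := by
  have h1 : σ (a : K) ≠ 0 := xsp_ne h
  have h2 : σ' (a : K) ≠ 0 := xsp_ne h
  unfold lg
  rw [Real.exp_log (abs_pos.2 (div_ne_zero h1 h2)), ← abs_mul]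
  have e : σ (a : K) * σ' (a : K) * (σ (a : K) / σ' (a : K)) = σ (a : K) ^ 2 := by
    field_simp
  rw [e, abs_of_nonneg (sq_nonneg _)]

/-- the second coordinate -/
theorem xsp_sq2 {σ σ' : K →+* ℝ} {a : 𝓞 K} (h : a ≠ 0) :
    σ' (a : K) ^ 2 = |σ (a : K) * σ' (a : K)| * Real.exp (-lg σ σ' a) := by
  have h1 : σ (a : K) ≠ 0 := xsp_ne h
  have h2 : σ' (a : K) ≠ 0 := xsp_ne h
  unfold lg
  rw [Real.exp_neg, Real.exp_log (abs_pos.2 (div_ne_zero h1 h2)), ← abs_inv, ← abs_mul]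
  have e : σ (a : K) * σ' (a : K) * (σ (a : K) / σ' (a : K))⁻¹ = σ' (a : K) ^ 2 := by
    field_simp
  rw [e, abs_of_nonneg (sq_nonneg _)]

/-- the ratio -/
theorem xsp_ratio {σ σ' : K →+* ℝ} {a : 𝓞 K} (h : a ≠ 0) :
    |σ' (a : K) / σ (a : K)| = Real.exp (-lg σ σ' a) := by
  have h1 : σ (a : K) ≠ 0 := xsp_ne h
  have h2 : σ' (a : K) ≠ 0 := xsp_ne h
  unfold lg
  rw [Real.exp_neg, Real.exp_log (abs_pos.2 (div_ne_zero h1 h2)), ← abs_inv, inv_div]

theorem xsp_det (σ σ' : K →+* ℝ) (α β : 𝓞 K) (v w : ℤ × ℤ) :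
    σ (lv K α β v : K) * σ' (lv K α β w : K) - σ (lv K α β w : K) * σ' (lv K α β v : K) =
      (det v w : ℝ) * (σ (α : K) * σ' (β : K) - σ (β : K) * σ' (α : K)) := by
  unfold lv det
  push_cast
  simp only [map_add, map_mul, map_intCast]
  ring

end

theorem pf_XSP (hEMB : T_EMB) (hPBG : T_PBG) (hPBT : T_PBT) (hTRN : T_TRN) (hSEP : T_SEP) :
    T_XSP := by
  intro K _ _ D f σ σ' hRQ hf R c N τ V hV
  obtain ⟨S, hS⟩ : ∃ S, S = {v : ℤ × ℤ | Lx f N (R.Q c) V v ∧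
      0 ≤ τ + lg σ σ' (lv K (R.α c) (R.β c) v) ∧
      τ + lg σ σ' (lv K (R.α c) (R.β c) v) < 1} := ⟨_, rfl⟩
  rw [← hS]
  obtain ⟨I, hI⟩ : ∃ I : ℝ, I = (Ideal.absNorm (R.I c : Ideal (𝓞 K)) : ℝ) := ⟨_, rfl⟩
  obtain ⟨L, hL⟩ : ∃ L : ℤ × ℤ → 𝓞 K, L = fun v => lv K (R.α c) (R.β c) v := ⟨_, rfl⟩
  have hLv : ∀ v, lv K (R.α c) (R.β c) v = L v := fun v => by rw [hL]
  have hob := R.ob c
  have hIne : (R.I c : Ideal (𝓞 K)) ≠ ⊥ := nonZeroDivisors.coe_ne_zero (R.I c)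
  have hPB := (hPBT K σ σ').1 _ _ _ _ hIne hob
  have hI0 : 0 < I := by
    rw [hI]
    exact hPB.pos
  obtain ⟨-, hdt, -⟩ := hPBG K σ σ' _ _ _ _ hPB
  rw [R.ds c, ← hI] at hdt
  have hD0 : (0 : ℝ) < D := by exact_mod_cast hRQ.pos
  have hsD : 0 < Real.sqrt D := Real.sqrt_pos.2 hD0
  have hf0 : (0 : ℝ) < f := by exact_mod_cast hf
  have hdt' : σ (R.α c : K) * σ' (R.β c : K) - σ (R.β c : K) * σ' (R.α c : K) =
      I * Real.sqrt D := by
    rw [hdt]
    congr 2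
    push_cast
    ring
  have hdet : ∀ v w, σ (L v : K) * σ' (L w : K) - σ (L w : K) * σ' (L v : K) =
      (det v w : ℝ) * (I * Real.sqrt D) := by
    intro v w
    rw [← hdt', ← hLv, ← hLv]
    exact xsp_det σ σ' _ _ v w
  have hprod : ∀ v, σ (L v : K) * σ' (L v : K) = I * val (R.Q c) v := by
    intro v
    rw [hI, ← hLv]
    exact hob.nrm v
  have hmS : ∀ v, v ∈ S ↔ Lx f N (R.Q c) V v ∧ 0 ≤ τ + lg σ σ' (L v) ∧
      τ + lg σ σ' (L v) < 1 := by
    intro v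
    rw [hS, Set.mem_ofPred_eq, hLv]
  have hLne : ∀ v ∈ S, L v ≠ 0 := by
    intro v hv h0
    rw [hmS] at hv
    exact hv.1.ne (hob.inj v (by rw [hLv]; exact h0))
  have hinj : ∀ v w, L v = L w → v = w := by
    intro v w h
    have h1 : lv K (R.α c) (R.β c) (v - w) = 0 := by
      rw [← hLv, ← hLv] at h
      unfold lv at h ⊢
      push_cast [Prod.fst_sub, Prod.snd_sub]
      linear_combination h
    exact sub_eq_zero.1 (hob.inj _ h1)
  have hSq : ∀ v ∈ S, Squarefree (val (R.Q c) v).natAbs ∧ |(val (R.Q c) v : ℝ)| ≤ N ∧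
      (1 : ℝ) ≤ N := by
    intro v hv
    rw [hmS] at hv
    have h1 := hv.1.sq
    unfold Sq at h1
    rw [Finset.mem_filter, Finset.mem_Icc] at h1
    refine ⟨h1.2, ?_, ?_⟩
    · rw [← Int.cast_abs, Int.abs_eq_natAbs, Int.cast_natCast]
      exact_mod_cast h1.1.2
    · have h2 := h1.1.1.trans h1.1.2
      exact_mod_cast h2
  have habs : ∀ v ∈ S, |σ (L v : K) * σ' (L v : K)| ≤ I * N := by
    intro v hv
    rw [hprod v, abs_mul, abs_of_pos hI0]
    exact mul_le_mul_of_nonneg_left (hSq v hv).2.1 hI0.le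
  have hs1 : ∀ v ∈ S, σ (L v : K) ^ 2 ≤ I * N * Real.exp (1 - τ) := by
    intro v hv
    rw [xsp_sq1 (σ' := σ') (hLne v hv)]
    have h1 := ((hmS v).1 hv).2.2
    exact mul_le_mul (habs v hv) (Real.exp_le_exp.2 (by linarith)) (Real.exp_pos _).le
      (mul_nonneg hI0.le (Nat.cast_nonneg N))
  have hs2 : ∀ v ∈ S, σ' (L v : K) ^ 2 ≤ I * N * Real.exp τ := by
    intro v hv
    rw [xsp_sq2 (σ := σ) (hLne v hv)]
    have h1 := ((hmS v).1 hv).2.1
    exact mul_le_mul (habs v hv) (Real.exp_le_exp.2 (by linarith)) (Real.exp_pos _).le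
      (mul_nonneg hI0.le (Nat.cast_nonneg N))
  have hfin : S.Finite := by
    obtain ⟨B, hB⟩ : ∃ B : ℝ, B = 1 + I * N * Real.exp (1 - τ) + I * N * Real.exp τ := ⟨_, rfl⟩
    have hp1 : 0 ≤ I * N * Real.exp (1 - τ) :=
      mul_nonneg (mul_nonneg hI0.le (Nat.cast_nonneg N)) (Real.exp_pos _).le
    have hp2 : 0 ≤ I * N * Real.exp τ :=
      mul_nonneg (mul_nonneg hI0.le (Nat.cast_nonneg N)) (Real.exp_pos _).le
    have hB1 : 1 ≤ B := by rw [hB]; linarith
    have h0 := (hEMB K D σ σ' hRQ).2.2 B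
    refine Set.Finite.of_injOn (f := L) (t := {a : 𝓞 K | |σ (a : K)| ≤ B ∧ |σ' (a : K)| ≤ B})
      ?_ (fun v _ w _ h => hinj v w h) h0
    intro v hv
    refine ⟨abs_le_of_sq_le_sq ?_ (by linarith), abs_le_of_sq_le_sq ?_ (by linarith)⟩
    · have h1 := hs1 v hv
      nlinarith
    · have h1 := hs2 v hv
      nlinarith
  refine ⟨hfin, ?_⟩
  by_cases hemp : S = ∅
  · rw [hemp, Set.ncard_empty, Nat.cast_zero]
    positivity
  obtain ⟨v0, hv0⟩ := Set.nonempty_iff_ne_empty.2 hemp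
  have hN1 : (1 : ℝ) ≤ N := (hSq v0 hv0).2.2
  have hN0 : (0 : ℝ) < N := by linarith
  obtain ⟨cc, hcc⟩ : ∃ cc : ℝ, cc = f * Real.sqrt D * Real.exp (τ - 1) / N := ⟨_, rfl⟩
  have hcc0 : 0 < cc := by
    rw [hcc]
    positivity
  -- the separation
  have hdiff : ∀ v ∈ S, ∀ w ∈ S, |σ' (L v : K) / σ (L v : K) - σ' (L w : K) / σ (L w : K)| *
      |σ (L v : K) * σ (L w : K)| = |(det v w : ℝ)| * (I * Real.sqrt D) := by
    intro v hv w hw
    have h1 : σ (L v : K) ≠ 0 := xsp_ne (hLne v hv)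
    have h2 : σ (L w : K) ≠ 0 := xsp_ne (hLne w hw)
    have h3 : (σ' (L v : K) / σ (L v : K) - σ' (L w : K) / σ (L w : K)) *
        (σ (L v : K) * σ (L w : K)) = -((det v w : ℝ) * (I * Real.sqrt D)) := by
      rw [← hdet v w]
      field_simp
      ring
    rw [← abs_mul, h3, abs_neg, abs_mul, abs_of_pos (mul_pos hI0 hsD)]
  have hss : ∀ v ∈ S, ∀ w ∈ S, |σ (L v : K) * σ (L w : K)| ≤ I * N * Real.exp (1 - τ) := by
    intro v hv w hw
    have h1 := hs1 v hv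
    have h2 := hs1 w hw
    rw [abs_le]
    constructor
    · nlinarith [sq_nonneg (σ (L v : K) + σ (L w : K))]
    · nlinarith [sq_nonneg (σ (L v : K) - σ (L w : K))]
  have hsep : ∀ v ∈ S, ∀ w ∈ S,
      σ' (L v : K) / σ (L v : K) ≠ σ' (L w : K) / σ (L w : K) →
      cc ≤ |σ' (L v : K) / σ (L v : K) - σ' (L w : K) / σ (L w : K)| := by
    intro v hv w hw hne
    have h1 := hdiff v hv w hw
    have h2 := hss v hv w hw
    obtain ⟨d, hd⟩ : ∃ d, d = |σ' (L v : K) / σ (L v : K) - σ' (L w : K) / σ (L w : K)| :=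
      ⟨_, rfl⟩
    have hd0 : 0 < d := by
      rw [hd]
      exact abs_pos.2 (sub_ne_zero.2 hne)
    rw [← hd] at h1 ⊢
    have hvw0 : 0 < |σ (L v : K) * σ (L w : K)| :=
      abs_pos.2 (mul_ne_zero (xsp_ne (hLne v hv)) (xsp_ne (hLne w hw)))
    have hdet0 : det v w ≠ 0 := by
      intro h0
      rw [h0, Int.cast_zero, abs_zero, zero_mul] at h1
      exact (mul_pos hd0 hvw0).ne' h1
    have hfd : (f : ℤ) ∣ det v w := by
      have hun : Uv f (R.Q c) V := (R.lt c).un V hV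
      obtain ⟨t, x, hx⟩ := hTRN.2.1 f (R.Q c) V v hun ((hmS v).1 hv).1.lin
      obtain ⟨t', y, hy⟩ := hTRN.2.1 f (R.Q c) V w hun ((hmS w).1 hw).1.lin
      refine ⟨t * det V y + det x (t' • V + (f : ℤ) • y), ?_⟩
      rw [hx, hy]
      unfold det
      simp only [Prod.fst_add, Prod.snd_add, Prod.smul_fst, Prod.smul_snd, smul_eq_mul]
      ring
    have hfa : (f : ℝ) ≤ |(det v w : ℝ)| := by
      have h3 : (f : ℤ) ≤ |det v w| := by
        have h4 := Int.le_of_dvd (abs_pos.2 hdet0) ((dvd_abs _ _).2 hfd)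
        exact h4
      have h4 : ((f : ℤ) : ℝ) ≤ ((|det v w| : ℤ) : ℝ) := by exact_mod_cast h3
      rw [Int.cast_natCast, Int.cast_abs] at h4
      exact h4
    have h3 : f * (I * Real.sqrt D) ≤ d * (I * N * Real.exp (1 - τ)) := by
      calc f * (I * Real.sqrt D) ≤ |(det v w : ℝ)| * (I * Real.sqrt D) :=
            mul_le_mul_of_nonneg_right hfa (mul_pos hI0 hsD).le
        _ = d * |σ (L v : K) * σ (L w : K)| := h1.symm
        _ ≤ _ := mul_le_mul_of_nonneg_left h2 hd0.le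
    have h4 : f * Real.sqrt D ≤ d * N * Real.exp (1 - τ) := by
      refine le_of_mul_le_mul_left ?_ hI0
      linarith
    have h5 : Real.exp (1 - τ) * Real.exp (τ - 1) = 1 := by
      rw [← Real.exp_add]
      rw [show (1 - τ) + (τ - 1) = 0 by ring, Real.exp_zero]
    rw [hcc, div_le_iff₀ hN0]
    calc f * Real.sqrt D * Real.exp (τ - 1) ≤ d * N * Real.exp (1 - τ) * Real.exp (τ - 1) :=
          mul_le_mul_of_nonneg_right h4 (Real.exp_pos _).le
      _ = d * N := by rw [mul_assoc, h5, mul_one]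
  have hcount := xsp_count hSEP S hfin (fun v => σ' (L v : K) / σ (L v : K)) (Real.exp τ) cc
    (Real.exp_pos _).le hcc0 ?_ hsep ?_
  · have h1 : 2 * Real.exp τ / cc = 2 * Real.exp 1 * N / (f * Real.sqrt D) := by
      have h2 : Real.exp τ = Real.exp 1 * Real.exp (τ - 1) := by
        rw [← Real.exp_add]
        congr 1
        ring
      rw [hcc, h2]
      have h3 : Real.exp (τ - 1) ≠ 0 := (Real.exp_pos _).ne'
      field_simp
    rw [h1] at hcount
    have h2 : Real.exp 1 ≤ 3 := by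
      have := Real.exp_one_lt_d9
      linarith
    refine hcount.trans ?_
    have h3 : 2 * Real.exp 1 * N / (f * Real.sqrt D) ≤ 6 * N / (f * Real.sqrt D) := by
      refine div_le_div_of_nonneg_right ?_ (mul_pos hf0 hsD).le
      nlinarith
    have h4 : 2 * (1 + 6 * N / (f * Real.sqrt D)) = 2 + 12 * N / (f * Real.sqrt D) := by ring
    rw [← h4]
    linarith
  · intro v hv
    rw [xsp_ratio (hLne v hv)]
    exact Real.exp_le_exp.2 (by linarith [((hmS v).1 hv).2.1])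
  · intro v hv w hw huv
    have h1 := hdiff v hv w hw
    have huv' : σ' (L v : K) / σ (L v : K) = σ' (L w : K) / σ (L w : K) := huv
    rw [huv', sub_self, abs_zero, zero_mul] at h1
    have h2 : (det v w : ℝ) = 0 := by
      rcases mul_eq_zero.1 h1.symm with h | h
      · exact abs_eq_zero.1 h
      · exact absurd h (mul_pos hI0 hsD).ne'
    exact xsp_two (hSq v hv).1 (hSq w hw).1 (by exact_mod_cast h2)

end Pool.Agent.H19.DFX
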